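import Mathlib

set_option autoImplicit false

namespace Pool.Agent.Results.MP_cd30d4_co.Nonneg

open Finset

noncomputable def s (a : ℝ) (r n : ℕ) : ℝ := ∑ k ∈ range (n + 1), if r ≤ k then n.choose k * (-a) ^ (n - k) else 0

theorem step (a : ℝ) (q n : ℕ) :
    s a (q + 1) (n + 1) = (1 - a) * s a (q + 1) n + n.choose q * (-a) ^ (n - q) := by
  have e1 : s a (q + 1) (n + 1) = (∑ k ∈ range (n + 1), if q ≤ k then n.choose k * (-a) ^ (n - k) else 0) +
      ∑ k ∈ range (n + 1), if q ≤ k then n.choose (k + 1) * (-a) ^ (n - k) else 0 := by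
    rw [s, sum_range_succ', if_neg (by omega), add_zero, ← sum_add_distrib]
    refine sum_congr rfl fun k _ => ?_
    simp only [Nat.add_le_add_iff_right, Nat.choose_succ_succ', Nat.add_sub_add_right]
    split_ifs <;> push_cast <;> ring
  have e2 : (∑ k ∈ range (n + 1), if q ≤ k then n.choose k * (-a) ^ (n - k) else 0) =
      s a (q + 1) n + n.choose q * (-a) ^ (n - q) := by
    have : ∀ k, (if q ≤ k then n.choose k * (-a) ^ (n - k) else 0) =
        (if q + 1 ≤ k then n.choose k * (-a) ^ (n - k) else 0) +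
          if q = k then n.choose q * (-a) ^ (n - q) else 0 := fun k => by
      split_ifs <;> first | omega | simp [*]
    rw [sum_congr rfl fun k _ => this k, sum_add_distrib, sum_ite_eq, s]
    split_ifs with h
    · rfl
    · rw [Nat.choose_eq_zero_of_lt (by simpa using h)]; simp
  have e3 : (∑ k ∈ range (n + 1), if q ≤ k then n.choose (k + 1) * (-a) ^ (n - k) else 0) =
      -a * s a (q + 1) n := by
    rw [sum_range_succ, s, sum_range_succ' _ n, if_neg (show ¬ q + 1 ≤ 0 by omega), add_zero, mul_sum]
    simp only [Nat.choose_succ_self, Nat.cast_zero, zero_mul, ite_self, add_zero,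
      Nat.add_le_add_iff_right]
    refine sum_congr rfl fun k hk => ?_
    rw [show n - k = n - (k + 1) + 1 by have := mem_range.mp hk; omega]
    split_ifs <;> ring
  rw [e1, e2, e3]
  ring

theorem main (q j : ℕ) : 0 ≤ s (1 / (q + 2)) (q + 1) (q + j) ∧ 0 ≤ s (1 / (q + 2)) (q + 1) (q + j + 1) := by
  have z : s (1 / (q + 2)) (q + 1) q = 0 := sum_eq_zero fun k hk => if_neg (by
    have := mem_range.mp hk; omega)
  induction j with
  | zero => simp only [add_zero, step, z]; simp
  | succ j ih =>
    refine ⟨ih.2, ?_⟩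
    have a := step (1 / (q + 2)) q (q + j)
    have b := step (1 / (q + 2)) q (q + j + 1)
    have c : ((q + j + 1).choose q : ℝ) * (j + 1) = (q + j + 1) * (q + j).choose q := by
      have := Nat.choose_mul_succ_eq (q + j) q
      rw [show q + j + 1 - q = j + 1 by omega] at this
      rw [mul_comm (_ + _ + 1 : ℝ)]
      exact_mod_cast this.symm
    rw [show q + j + 1 - q = j + 1 by omega, pow_succ] at b
    rw [show q + j - q = j by omega] at a
    have h : (0 : ℝ) < q + 2 := by positivity
    have : (j + 1) * s (1 / (q + 2)) (q + 1) (q + j + 1 + 1) =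
        j * q / (q + 2) * s (1 / (q + 2)) (q + 1) (q + j + 1) +
          (q + 1) * (q + j + 1) / (q + 2) ^ 2 * s (1 / (q + 2)) (q + 1) (q + j) := by
      have d : ((q + j + 1).choose q : ℝ) = (q + j + 1) * (q + j).choose q / (j + 1) := by
        rw [← c]; field_simp
      rw [b, a, d]
      field_simp
      ring
    have i1 := ih.1
    have i2 := ih.2
    exact nonneg_of_mul_nonneg_right (this ▸ by positivity) (by positivity : (0 : ℝ) < j + 1)

theorem result (r n : ℕ) (hr : 1 ≤ r) :
    0 ≤ (1 / n.factorial : ℝ) * ∑ k ∈ Icc r n, n.choose k * (-(1 / (r + 1 : ℝ))) ^ (n - k) := by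
  refine mul_nonneg (by positivity) ?_
  obtain ⟨q, rfl⟩ : ∃ q, r = q + 1 := ⟨r - 1, by omega⟩
  rcases le_or_gt n q with h | h
  · rw [Icc_eq_empty (by omega), sum_empty]
  · obtain ⟨j, rfl⟩ : ∃ j, n = q + j := ⟨n - q, by omega⟩
    have := (main q j).1
    rw [s, ← sum_filter] at this
    have e : Icc (q + 1) (q + j) = (range (q + j + 1)).filter (q + 1 ≤ ·) := by
      ext k; simp only [mem_Icc, mem_filter, mem_range]; omega
    have f : ((q + 1 : ℕ) : ℝ) + 1 = q + 2 := by push_cast; ring
    rw [e, f]
    exact this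

end Pool.Agent.Results.MP_cd30d4_co.Nonneg
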